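import Pool.Agent.H854R3.CR.Stmts2

set_option autoImplicit false

namespace Pool.Agent.H410R3.CRX

open Pool.Agent.H854R3.CR

theorem geF_red {M : ℕ} {f : G} (h : GeZ M f) : GeF M (red f) := by
  intro w hw
  apply h w
  intro h0
  apply hw
  unfold red
  rw [MonoidAlgebra.coeff_mapRingHom, h0, map_zero]

theorem geF_zero (M : ℕ) : GeF M 0 := by
  intro w hw
  exact absurd (by simp) hw

instance countable_G : Countable G := by
  have h1 : Countable W2 := by
    have : Countable (List (Fin 2)) := inferInstance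
    exact this
  have h2 : Countable (W2 →₀ ℤ) := inferInstance
  exact (MonoidAlgebra.coeffEquiv (R := ℤ) (M := W2)).injective.countable

theorem geZ_mono {m n : ℕ} (h : m ≤ n) {f : G} (hf : GeZ n f) : GeZ m f :=
  fun w hw => h.trans (hf w hw)

theorem geZ_gx : GeZ 1 gx := by
  classical
  intro w hw
  unfold gx at hw
  rw [MonoidAlgebra.coeff_single, Finsupp.single_apply] at hw
  have : FreeMonoid.of 0 = w := by
    by_contra h
    rw [if_neg h] at hw
    exact hw rfl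
  rw [← this]
  simp

theorem geZ_gy : GeZ 1 gy := by
  classical
  intro w hw
  unfold gy at hw
  rw [MonoidAlgebra.coeff_single, Finsupp.single_apply] at hw
  have : FreeMonoid.of 1 = w := by
    by_contra h
    rw [if_neg h] at hw
    exact hw rfl
  rw [← this]
  simp

theorem core : TaskCore := by
  classical
  intro hInv hGS
  have : Nonempty (G × G) := ⟨(0, 0)⟩
  obtain ⟨e, he⟩ := exists_surjective_nat (G × G)
  have hW : ∀ i M : ℕ, ∃ W W' : G, GeZ 2 (e i).1 ∧ GeZ 2 (e i).2 →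
      (GeZ 1 W ∧ GeZ M (gx - ev (e i).1 (e i).2 W)) ∧
      (GeZ 1 W' ∧ GeZ M (gy - ev (e i).1 (e i).2 W')) := by
    intro i M
    by_cases h : GeZ 2 (e i).1 ∧ GeZ 2 (e i).2
    · obtain ⟨W, hW⟩ := hInv _ _ h.1 h.2 gx geZ_gx M
      obtain ⟨W', hW'⟩ := hInv _ _ h.1 h.2 gy geZ_gy M
      exact ⟨W, W', fun _ => ⟨hW, hW'⟩⟩
    · exact ⟨0, 0, fun h' => absurd h' h⟩
  choose W W' hWW using hW
  obtain ⟨I, l, h1, h2, h3, h4⟩ := hGS
    (fun i M => if GeZ 2 (e i).1 ∧ GeZ 2 (e i).2 then red (gx - ev (e i).1 (e i).2 (W i M)) else 0)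
    (fun i M => if GeZ 2 (e i).1 ∧ GeZ 2 (e i).2 then red (gy - ev (e i).1 (e i).2 (W' i M)) else 0)
    (by
      intro i M
      by_cases h : GeZ 2 (e i).1 ∧ GeZ 2 (e i).2
      · simp only [if_pos h]
        exact ⟨geF_red (hWW i M h).1.2, geF_red (hWW i M h).2.2⟩
      · simp only [if_neg h]
        exact ⟨geF_zero M, geF_zero M⟩)
  refine ⟨I, l, h1, h2, h3, ?_⟩
  intro a b ha hb
  obtain ⟨i, hi⟩ := he (a, b)
  have hab : GeZ 2 (e i).1 ∧ GeZ 2 (e i).2 := by rw [hi]; exact ⟨ha, hb⟩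
  obtain ⟨M, hM, h5, h6, h7, h8⟩ := h4 i
  simp only [if_pos hab] at h5 h6 h7 h8
  obtain ⟨⟨h9, h10⟩, ⟨h11, h12⟩⟩ := hWW i M hab
  rw [hi] at h5 h6 h7 h8 h10 h12
  exact ⟨⟨W i M, h9, geZ_mono hM h10, h5, h6⟩, ⟨W' i M, h11, geZ_mono hM h12, h7, h8⟩⟩

end Pool.Agent.H410R3.CRX
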